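import Mathlib

set_option autoImplicit false

/-!
The discriminant of a number field and the primes above a finite set of rational primes.
-/

namespace Pool.Agent.Q256.VD

open NumberField

variable {L : Type*} [Field L] [NumberField L]

/-- For a finite set `V` of primes `[L : ℚ] ∑_{p ∈ V} log p ≤ log |disc L| + ∑ log N(Q)`, the last
sum over the primes `Q` of `L` above the primes in `V`. -/
theorem relZ (V : Finset Nat.Primes) :
    ∃ W : Finset (Ideal (𝓞 L)),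
      (∀ Q ∈ W, Q.IsPrime ∧ Q ≠ ⊥ ∧ ∃ p ∈ V, (((p : ℕ) : ℕ) : 𝓞 L) ∈ Q) ∧
      (Module.finrank ℚ L : ℝ) * ∑ p ∈ V, Real.log ((p : ℕ) : ℝ) ≤
      Real.log |(discr L : ℝ)| + ∑ Q ∈ W, Real.log (Ideal.absNorm Q) := by
  classical
  let P : Nat.Primes → Ideal ℤ := fun p => Ideal.span {((p : ℕ) : ℤ)}
  have hmax : ∀ v : Nat.Primes, (P v).IsMaximal := by
    intro v
    have : Fact (Nat.Prime (v : ℕ)) := ⟨v.2⟩
    exact Int.ideal_span_isMaximal_of_prime (v : ℕ)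
  have hPne : ∀ v : Nat.Primes, P v ≠ ⊥ := by
    intro v h
    have h1 := Ideal.span_singleton_eq_bot.1 h
    exact v.2.ne_zero (by exact_mod_cast h1)
  have hPinj : ∀ v v' : Nat.Primes, P v = P v' → v = v' := by
    intro v v' h
    have h1 := Ideal.span_singleton_eq_span_singleton.1 h
    have h2 := Int.associated_iff_natAbs.1 h1
    rw [Int.natAbs_natCast, Int.natAbs_natCast] at h2
    exact Subtype.ext h2
  -- the primes above `v`
  let I : Nat.Primes → Finset (Ideal (𝓞 L)) := fun v => ((P v).primesOver (𝓞 L)).toFinset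
  have hI : ∀ v Q, Q ∈ I v ↔ Q.IsPrime ∧ Q.LiesOver (P v) := by
    intro v Q
    show Q ∈ ((P v).primesOver (𝓞 L)).toFinset ↔ _
    rw [Set.mem_toFinset]
    rfl
  have hbot : ∀ v Q, Q ∈ I v → Q ≠ ⊥ := by
    intro v Q hQ
    obtain ⟨h1, h2⟩ := (hI v Q).1 hQ
    exact Ideal.ne_bot_of_liesOver_of_ne_bot (hPne v) Q
  have hdisj : ∀ v ∈ V, ∀ v' ∈ V, v ≠ v' → Disjoint (I v) (I v') := by
    intro v _ v' _ hvv
    rw [Finset.disjoint_left]
    intro Q hQ hQ'
    have h1 := ((hI v Q).1 hQ).2.over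
    have h2 := ((hI v' Q).1 hQ').2.over
    exact hvv (hPinj _ _ (h1.trans h2.symm))
  set Z := V.biUnion I with hZ
  have hZbot : ∀ Q ∈ Z, Q.IsPrime ∧ Q ≠ ⊥ := by
    intro Q hQ
    rw [hZ, Finset.mem_biUnion] at hQ
    obtain ⟨v, _, hQ⟩ := hQ
    exact ⟨((hI v Q).1 hQ).1, hbot v Q hQ⟩
  have hlog0 : ∀ Q : Ideal (𝓞 L), 0 ≤ Real.log (Ideal.absNorm Q) := fun Q =>
    Real.log_natCast_nonneg _
  refine ⟨Z, ?_, ?_⟩
  · intro Q hQ
    refine ⟨(hZbot Q hQ).1, (hZbot Q hQ).2, ?_⟩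
    obtain ⟨v, hv, hQ'⟩ := Finset.mem_biUnion.1 hQ
    refine ⟨v, hv, ?_⟩
    have h1 := ((hI v Q).1 hQ').2.over
    have h2 : ((v : ℕ) : ℤ) ∈ P v := Ideal.mem_span_singleton_self _
    rw [h1, Ideal.mem_under] at h2
    simpa using h2
  -- factorisation
  have hmap : ∀ v : Nat.Primes, Ideal.map (algebraMap ℤ (𝓞 L)) (P v) =
      ∏ Q ∈ I v, Q ^ Q.ramificationIdx ℤ := by
    intro v
    have := hmax v
    exact Ideal.map_algebraMap_eq_finsetProd_pow (hPne v)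
  have hfr : Module.finrank ℤ (𝓞 L) = Module.finrank ℚ L := RingOfIntegers.rank L
  have s2 : ∀ v : Nat.Primes, (Module.finrank ℚ L : ℝ) * Real.log ((v : ℕ) : ℝ) =
      ∑ Q ∈ I v, (Q.ramificationIdx ℤ : ℝ) * Real.log (Ideal.absNorm Q) := by
    intro v
    have h1 := Ideal.absNorm_algebraMap ℤ (𝓞 L) (P v)
    have hn : Ideal.absNorm (P v) = (v : ℕ) := by
      simp only [P]
      rw [Ideal.absNorm_span_singleton]
      simp
    rw [hmap v, map_prod, hfr, hn] at h1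
    have h2 : (∏ Q ∈ I v, ((Ideal.absNorm Q : ℝ)) ^ Q.ramificationIdx ℤ) =
        ((v : ℕ) : ℝ) ^ Module.finrank ℚ L := by
      have h3 := congrArg (fun n : ℕ => (n : ℝ)) h1
      simp only [Nat.cast_prod, Nat.cast_pow, map_pow] at h3
      exact h3
    rw [← Real.log_pow, ← h2, Real.log_prod]
    · refine Finset.sum_congr rfl fun Q _ => ?_
      rw [Real.log_pow]
    · intro Q hQ
      refine pow_ne_zero _ ?_
      rw [Nat.cast_ne_zero]
      exact Ideal.absNorm_eq_zero_iff.not.2 (hbot v Q hQ)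
  have s3 : (Module.finrank ℚ L : ℝ) * ∑ v ∈ V, Real.log ((v : ℕ) : ℝ) =
      ∑ Q ∈ Z, (Q.ramificationIdx ℤ : ℝ) * Real.log (Ideal.absNorm Q) := by
    rw [Finset.mul_sum, hZ, Finset.sum_biUnion hdisj]
    exact Finset.sum_congr rfl fun v _ => s2 v
  -- the different
  have hdvd : (∏ Q ∈ Z, Q ^ (Q.ramificationIdx ℤ - 1)) ∣ differentIdeal ℤ (𝓞 L) := by
    refine Finset.prod_dvd_of_coprime ?_ ?_
    · intro Q hQ Q' hQ' hne
      have m1 : Q.IsMaximal := (hZbot Q hQ).1.isMaximal (hZbot Q hQ).2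
      have m2 : Q'.IsMaximal := (hZbot Q' hQ').1.isMaximal (hZbot Q' hQ').2
      exact (Ideal.isCoprime_of_isMaximal hne).pow
    · intro Q hQ
      rw [hZ, Finset.mem_biUnion] at hQ
      obtain ⟨v, -, hQ⟩ := hQ
      have := hmax v
      refine pow_sub_one_dvd_differentIdeal ℤ (p := P v) Q _ (hPne v) ?_
      rw [hmap v]
      exact Finset.dvd_prod_of_mem _ hQ
  have hdisc : Ideal.absNorm (differentIdeal ℤ (𝓞 L)) = (discr L).natAbs :=
    NumberField.absNorm_differentIdeal L (𝓞 L)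
  have hdiff0 : Ideal.absNorm (differentIdeal ℤ (𝓞 L)) ≠ 0 := by
    rw [hdisc]
    exact fun h => NumberField.discr_ne_zero L (Int.natAbs_eq_zero.1 h)
  have s4 : ∑ Q ∈ Z, ((Q.ramificationIdx ℤ - 1 : ℕ) : ℝ) * Real.log (Ideal.absNorm Q) ≤
      Real.log (Ideal.absNorm (differentIdeal ℤ (𝓞 L))) := by
    have h1 := Ideal.absNorm_dvd_absNorm_of_le (Ideal.dvd_iff_le.1 hdvd)
    have h2 := Nat.le_of_dvd (Nat.pos_of_ne_zero hdiff0) h1
    rw [map_prod] at h2
    have h3 : Real.log ((∏ Q ∈ Z, Ideal.absNorm (Q ^ (Q.ramificationIdx ℤ - 1)) : ℕ) : ℝ) ≤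
        Real.log (Ideal.absNorm (differentIdeal ℤ (𝓞 L))) := by
      refine Real.log_le_log ?_ (by exact_mod_cast h2)
      rw [Nat.cast_pos]
      refine Finset.prod_pos fun Q hQ => ?_
      rw [map_pow]
      refine pow_pos (Nat.pos_of_ne_zero ?_) _
      exact Ideal.absNorm_eq_zero_iff.not.2 (hZbot Q hQ).2
    refine le_trans (le_of_eq ?_) h3
    push_cast
    rw [Real.log_prod]
    · refine Finset.sum_congr rfl fun Q _ => ?_
      rw [map_pow, Nat.cast_pow, Real.log_pow]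
    · intro Q hQ
      rw [Nat.cast_ne_zero, map_pow]
      exact pow_ne_zero _ (Ideal.absNorm_eq_zero_iff.not.2 (hZbot Q hQ).2)
  have s5 : Real.log |(discr L : ℝ)| = Real.log (Ideal.absNorm (differentIdeal ℤ (𝓞 L))) := by
    have e1 : |(discr L : ℝ)| = ((discr L).natAbs : ℝ) := by
      rw [← Int.cast_abs, Int.abs_eq_natAbs]
      simp
    rw [e1, hdisc]
  rw [s3, s5]
  have s6 : ∑ Q ∈ Z, (Q.ramificationIdx ℤ : ℝ) * Real.log (Ideal.absNorm Q) ≤
      ∑ Q ∈ Z, ((Q.ramificationIdx ℤ - 1 : ℕ) : ℝ) * Real.log (Ideal.absNorm Q) +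
        ∑ Q ∈ Z, Real.log (Ideal.absNorm Q) := by
    rw [← Finset.sum_add_distrib]
    refine Finset.sum_le_sum fun Q _ => ?_
    have h1 : (Q.ramificationIdx ℤ : ℝ) ≤ ((Q.ramificationIdx ℤ - 1 : ℕ) : ℝ) + 1 := by
      exact_mod_cast (by omega : Q.ramificationIdx ℤ ≤ (Q.ramificationIdx ℤ - 1) + 1)
    have := mul_le_mul_of_nonneg_right h1 (hlog0 Q)
    linarith
  linarith

end Pool.Agent.Q256.VD
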