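import Mathlib
import Pool.Agent.Q256.VD.Rel
import Pool.Agent.Q256.VS.Fin

set_option autoImplicit false

/-!
The discriminant of a number field which contains roots of integers.
-/

namespace Pool.Agent.Q256.VD

open NumberField
open Pool.Agent.Q256.VS (offS)
open Pool.Agent.H813R3.Voj (rho rho_pos)

theorem offS_pos (S : Finset ℕ) (v : ℤ) : 0 < offS S v := by
  unfold offS
  refine Finset.prod_pos (fun p hp => ?_)
  rw [Finset.mem_sdiff] at hp
  exact pow_pos (Nat.prime_of_mem_primeFactors hp.1).pos _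

/-- the decomposition of an integer. -/
theorem off_on (S : Finset ℕ) (v : ℤ) (hv : v ≠ 0) :
    ∃ b : ℕ, v.natAbs = offS S v * b ∧ ∀ q : ℕ, q.Prime → q ∣ b → q ∈ S := by
  classical
  refine ⟨∏ p ∈ v.natAbs.primeFactors ∩ S, p ^ v.natAbs.factorization p, ?_, ?_⟩
  · unfold offS
    rw [mul_comm, Finset.prod_inter_mul_prod_sdiff]
    exact Nat.prod_primeFactors_pow_factorization (Int.natAbs_ne_zero.2 hv)
  · intro q hq hdvd
    obtain ⟨p, hp, hqp⟩ := (Nat.prime_iff.1 hq).exists_mem_finset_dvd hdvd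
    rw [Finset.mem_inter] at hp
    have h1 := Nat.prime_of_mem_primeFactors hp.1
    have h2 := hq.dvd_of_dvd_pow hqp
    rw [(Nat.prime_dvd_prime_iff_eq hq h1).1 h2]
    exact hp.2

variable {L : Type*} [Field L] [NumberField L]

/-- every prime of `L` which divides the integer `v` and is not above a prime in `S` divides it at
least `m` times. -/
def Orb (S : Finset ℕ) (L : Type*) [Field L] [NumberField L] (m : ℕ) (v : ℤ) : Prop :=
  ∀ Q : Ideal (𝓞 L), Q.IsPrime → Q ≠ ⊥ → (v : 𝓞 L) ∈ Q →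
    (∀ p ∈ S, p.Prime → ((p : ℕ) : 𝓞 L) ∉ Q) → Q ^ m ∣ Ideal.span {(v : 𝓞 L)}

theorem orb_of_root (S : Finset ℕ) (v : ℤ) (m : ℕ) (hm : 1 ≤ m) (x : L)
    (hx : x ^ m = (v : L)) : Orb S L m v := by
  intro Q hQ hQ0 hvQ _
  have hint : IsIntegral ℤ x := by
    refine IsIntegral.of_pow (n := m) hm ?_
    rw [hx]
    exact isIntegral_algebraMap (R := ℤ) (x := v)
  obtain ⟨t, ht0⟩ : ∃ t : 𝓞 L, (t : L) = x := ⟨⟨x, hint⟩, rfl⟩
  have ht : t ^ m = (v : 𝓞 L) := by
    apply RingOfIntegers.ext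
    have h5 : ((t ^ m : 𝓞 L) : L) = x ^ m := by rw [← ht0]; simp
    rw [h5, hx]
    simp
  have h1 : t ∈ Q := by
    have h2 : t ^ m ∈ Q := by rw [ht]; exact hvQ
    exact hQ.mem_of_pow_mem m h2
  have h3 : Q ^ m ∣ Ideal.span {t} ^ m :=
    pow_dvd_pow_of_dvd (by rw [Ideal.dvd_span_singleton]; exact h1) m
  rwa [Ideal.span_singleton_pow, ht] at h3

theorem one_orb (S : Finset ℕ) (v : ℤ) (hv : v ≠ 0) (m : ℕ) (ho : Orb S L m v)
    (Z : Finset (Ideal (𝓞 L)))
    (hZ : ∀ Q ∈ Z, Q.IsPrime ∧ Q ≠ ⊥ ∧ (v : 𝓞 L) ∈ Q ∧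
      ∃ p : ℕ, p.Prime ∧ p ∉ S ∧ ((p : ℕ) : 𝓞 L) ∈ Q) :
    (m : ℝ) * ∑ Q ∈ Z, Real.log (Ideal.absNorm Q) ≤
      Module.finrank ℚ L * Real.log (offS S v) := by
  classical
  obtain ⟨b, hb, hbS⟩ := off_on S v hv
  have hmax : ∀ Q ∈ Z, Q.IsMaximal := fun Q hQ => (hZ Q hQ).1.isMaximal (hZ Q hQ).2.1
  -- two different primes
  have hnot : ∀ Q ∈ Z, ∀ c : ℕ, (∀ q : ℕ, q.Prime → q ∣ c → q ∈ S) →
      IsCoprime Q (Ideal.span {((c : ℕ) : 𝓞 L)}) := by
    intro Q hQ c hc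
    obtain ⟨-, -, -, p, hp, hpS, hpQ⟩ := hZ Q hQ
    have h1 : Nat.Coprime p c := (Nat.Prime.coprime_iff_not_dvd hp).2 (fun h => hpS (hc p hp h))
    have h2 : IsCoprime ((p : ℕ) : ℤ) ((c : ℕ) : ℤ) := Nat.isCoprime_iff_coprime.2 h1
    obtain ⟨x, y, hxy⟩ := h2
    rw [Ideal.isCoprime_iff_exists]
    refine ⟨(x : 𝓞 L) * ((p : ℕ) : 𝓞 L), Ideal.mul_mem_left _ _ hpQ,
      (y : 𝓞 L) * ((c : ℕ) : 𝓞 L), Ideal.mul_mem_left _ _ (Ideal.mem_span_singleton_self _), ?_⟩
    exact_mod_cast congrArg (fun z : ℤ => (z : 𝓞 L)) hxy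
  have hdvd : (∏ Q ∈ Z, Q ^ m) ∣ Ideal.span {(v : 𝓞 L)} := by
    refine Finset.prod_dvd_of_coprime ?_ ?_
    · intro Q hQ Q' hQ' hne
      have m1 := hmax Q hQ
      have m2 := hmax Q' hQ'
      exact (Ideal.isCoprime_of_isMaximal hne).pow
    · intro Q hQ
      obtain ⟨h1, h2, h3, -⟩ := hZ Q hQ
      refine ho Q h1 h2 h3 (fun p hp hpp hpQ => ?_)
      have h4 := hnot Q hQ p (fun q hq hqp => by rwa [(Nat.prime_dvd_prime_iff_eq hq hpp).1 hqp])
      rw [Ideal.isCoprime_iff_sup_eq] at h4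
      have h5 : Ideal.span {((p : ℕ) : 𝓞 L)} ≤ Q := by
        rw [Ideal.span_singleton_le_iff_mem]; exact hpQ
      rw [sup_eq_left.2 h5] at h4
      exact h1.ne_top h4
  have hspan : Ideal.span {(v : 𝓞 L)} =
      Ideal.span {((offS S v : ℕ) : 𝓞 L)} * Ideal.span {((b : ℕ) : 𝓞 L)} := by
    rw [Ideal.span_singleton_mul_span_singleton]
    have h1 : ((v.natAbs : ℕ) : 𝓞 L) = ((offS S v : ℕ) : 𝓞 L) * ((b : ℕ) : 𝓞 L) := by
      rw [hb]; push_cast; rfl
    rw [← h1]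
    rcases Int.natAbs_eq v with h2 | h2
    · conv_lhs => rw [h2]
      rw [Int.cast_natCast]
    · conv_lhs => rw [h2]
      rw [Int.cast_neg, Int.cast_natCast, Ideal.span_singleton_neg]
  have hcop : IsCoprime (∏ Q ∈ Z, Q ^ m) (Ideal.span {((b : ℕ) : 𝓞 L)}) :=
    IsCoprime.prod_left fun Q hQ => (hnot Q hQ b hbS).pow_left
  have h1 : (∏ Q ∈ Z, Q ^ m) ∣ Ideal.span {((offS S v : ℕ) : 𝓞 L)} := by
    refine hcop.dvd_of_dvd_mul_right ?_
    rw [← hspan]
    exact hdvd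
  rw [Finset.prod_pow] at h1
  have h2 := Ideal.absNorm_dvd_absNorm_of_le (Ideal.dvd_iff_le.1 h1)
  have h3 : Ideal.absNorm (Ideal.span {((offS S v : ℕ) : 𝓞 L)}) =
      offS S v ^ Module.finrank ℚ L := by
    rw [Ideal.absNorm_span_natCast, RingOfIntegers.rank L]
  rw [h3, map_pow, map_prod] at h2
  have h4 := Nat.le_of_dvd (pow_pos (offS_pos S v) _) h2
  have hpos : ∀ Q ∈ Z, (Ideal.absNorm Q : ℝ) ≠ 0 := by
    intro Q hQ
    rw [Nat.cast_ne_zero]
    exact Ideal.absNorm_eq_zero_iff.not.2 (hZ Q hQ).2.1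
  have h5 : Real.log (((∏ Q ∈ Z, Ideal.absNorm Q) ^ m : ℕ) : ℝ) ≤
      Real.log ((offS S v ^ Module.finrank ℚ L : ℕ) : ℝ) := by
    refine Real.log_le_log ?_ (by exact_mod_cast h4)
    rw [Nat.cast_pos]
    refine pow_pos (Finset.prod_pos fun Q hQ => Nat.pos_of_ne_zero ?_) _
    exact Ideal.absNorm_eq_zero_iff.not.2 (hZ Q hQ).2.1
  push_cast at h5
  rwa [Real.log_pow, Real.log_pow, Real.log_prod hpos] at h5

/-- **The key inequality.** If the primes of the number field `L` outside `S` divide the integers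
`N i` at least `m i` times, if at all, then the sum of `log p` over the primes `p` outside `S`
dividing the product of the `N i` is at most the logarithmic discriminant of `L` plus
`∑ (1 / m i) log` of the part of `N i` prime to `S`. -/
theorem key_disc {r : ℕ} (S : Finset ℕ) (N : Fin r → ℤ) (hN : ∀ i, N i ≠ 0) (m : Fin r → ℕ)
    (hm : ∀ i, 1 ≤ m i) (ho : ∀ i, Orb S L (m i) (N i)) :
    Real.log (rho S (∏ i, N i)) ≤ Real.log |(discr L : ℝ)| / Module.finrank ℚ L +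
      ∑ i, (1 / (m i : ℝ)) * Real.log (offS S (N i)) := by
  classical
  -- the primes
  let f : {p // p ∈ (∏ i, N i).natAbs.primeFactors \ S} → Nat.Primes := fun p => ⟨p.1, by
      have := p.2
      rw [Finset.mem_sdiff] at this
      exact Nat.prime_of_mem_primeFactors this.1⟩
  have hf : Function.Injective f := fun p q h =>
    Subtype.ext (congrArg (fun z : Nat.Primes => (z : ℕ)) h)
  let V : Finset Nat.Primes := ((∏ i, N i).natAbs.primeFactors \ S).attach.image f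
  have hV : ∀ p ∈ V, (p : ℕ) ∈ (∏ i, N i).natAbs.primeFactors \ S := by
    intro p hp
    obtain ⟨q, _, rfl⟩ := Finset.mem_image.1 hp
    exact q.2
  have hVsum : ∑ p ∈ V, Real.log ((p : ℕ) : ℝ) = Real.log (rho S (∏ i, N i)) := by
    have h1 : ∑ p ∈ V, Real.log ((p : ℕ) : ℝ) =
        ∑ p ∈ (∏ i, N i).natAbs.primeFactors \ S, Real.log (p : ℝ) := by
      refine (Finset.sum_image (f := fun p : Nat.Primes => Real.log ((p : ℕ) : ℝ))
        (fun p _ q _ h => hf h)).trans ?_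
      exact Finset.sum_attach ((∏ i, N i).natAbs.primeFactors \ S) (fun p => Real.log (p : ℝ))
    rw [h1]
    unfold rho
    push_cast
    rw [Real.log_prod]
    intro p hp
    rw [Finset.mem_sdiff] at hp
    exact_mod_cast (Nat.prime_of_mem_primeFactors hp.1).ne_zero
  obtain ⟨W, hW, hle⟩ := relZ (L := L) V
  rw [hVsum] at hle
  have hfr : (0 : ℝ) < Module.finrank ℚ L := by exact_mod_cast Module.finrank_pos
  have hlog0 : ∀ Q : Ideal (𝓞 L), 0 ≤ Real.log (Ideal.absNorm Q) := fun Q =>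
    Real.log_natCast_nonneg _
  -- the primes dividing `N i`
  let Z : Fin r → Finset (Ideal (𝓞 L)) := fun i => W.filter (fun Q => (N i : 𝓞 L) ∈ Q)
  have hcov : ∀ Q ∈ W, ∃ i, Q ∈ Z i := by
    intro Q hQ
    obtain ⟨h1, h2, p, hp, hpQ⟩ := hW Q hQ
    have h3 := hV p hp
    rw [Finset.mem_sdiff] at h3
    have h4 : ((p : ℕ) : ℤ) ∣ ∏ i, N i := Int.natCast_dvd.2 (Nat.dvd_of_mem_primeFactors h3.1)
    obtain ⟨i, -, hi⟩ := (Nat.prime_iff_prime_int.1 p.2).exists_mem_finset_dvd h4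
    refine ⟨i, Finset.mem_filter.2 ⟨hQ, ?_⟩⟩
    obtain ⟨c, hc⟩ := hi
    rw [hc]
    push_cast
    exact Ideal.mul_mem_right _ _ hpQ
  have hsum : ∑ Q ∈ W, Real.log (Ideal.absNorm Q) ≤
      ∑ i, ∑ Q ∈ Z i, Real.log (Ideal.absNorm Q) := by
    calc ∑ Q ∈ W, Real.log (Ideal.absNorm Q)
        ≤ ∑ Q ∈ W, ∑ i, (if (N i : 𝓞 L) ∈ Q then Real.log (Ideal.absNorm Q) else 0) := by
          refine Finset.sum_le_sum fun Q hQ => ?_
          obtain ⟨i, hi⟩ := hcov Q hQ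
          have h1 : Real.log (Ideal.absNorm Q) =
              (if (N i : 𝓞 L) ∈ Q then Real.log (Ideal.absNorm Q) else 0) := by
            rw [if_pos (Finset.mem_filter.1 hi).2]
          conv_lhs => rw [h1]
          refine Finset.single_le_sum (f := fun i =>
            (if (N i : 𝓞 L) ∈ Q then Real.log (Ideal.absNorm Q) else 0)) (fun j _ => ?_)
            (Finset.mem_univ i)
          split_ifs
          · exact hlog0 Q
          · exact le_rfl
      _ = ∑ i, ∑ Q ∈ Z i, Real.log (Ideal.absNorm Q) := by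
          rw [Finset.sum_comm]
          refine Finset.sum_congr rfl fun i _ => ?_
          rw [Finset.sum_filter]
  have hone : ∀ i, ∑ Q ∈ Z i, Real.log (Ideal.absNorm Q) ≤
      Module.finrank ℚ L * ((1 / (m i : ℝ)) * Real.log (offS S (N i))) := by
    intro i
    have hmi : (0 : ℝ) < m i := by exact_mod_cast hm i
    have h1 := one_orb (L := L) S (N i) (hN i) (m i) (ho i) (Z i) (by
      intro Q hQ
      rw [Finset.mem_filter] at hQ
      obtain ⟨h1, h2, p, hp, hpQ⟩ := hW Q hQ.1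
      have h3 := hV p hp
      rw [Finset.mem_sdiff] at h3
      exact ⟨h1, h2, hQ.2, p, p.2, h3.2, hpQ⟩)
    have h2 : ∑ Q ∈ Z i, Real.log (Ideal.absNorm Q) =
        (1 / (m i : ℝ)) * ((m i : ℝ) * ∑ Q ∈ Z i, Real.log (Ideal.absNorm Q)) := by
      field_simp
    rw [h2]
    calc (1 / (m i : ℝ)) * ((m i : ℝ) * ∑ Q ∈ Z i, Real.log (Ideal.absNorm Q))
        ≤ (1 / (m i : ℝ)) * (Module.finrank ℚ L * Real.log (offS S (N i))) :=
          mul_le_mul_of_nonneg_left h1 (by positivity)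
      _ = _ := by ring
  have h6 : (Module.finrank ℚ L : ℝ) * Real.log (rho S (∏ i, N i)) ≤
      Real.log |(discr L : ℝ)| + Module.finrank ℚ L *
        ∑ i, (1 / (m i : ℝ)) * Real.log (offS S (N i)) := by
    rw [Finset.mul_sum]
    have := Finset.sum_le_sum fun i (_ : i ∈ Finset.univ) => hone i
    linarith
  rw [← sub_le_iff_le_add, le_div_iff₀ hfr]
  linarith

end Pool.Agent.Q256.VD
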