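import Mathlib
import Pool.Agent.Q256.VD.Key
import Pool.Agent.Q256.VS.Tot

set_option autoImplicit false

namespace Pool.Agent.Q256.VD

open Finset MvPolynomial
open Pool.Agent.Q256.CI Pool.Agent.Q256.VT Pool.Agent.Q256.VS
open Pool.Agent.H813R3.Voj (rho rho_pos)

/-- the logarithmic discriminant of a number field. -/
noncomputable def logDisc (L : Type) [Field L] [NumberField L] : ℝ :=
  Real.log |(NumberField.discr L : ℝ)| / Module.finrank ℚ L

/-- the height with respect to the canonical divisor of a cover of `X` with ramification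
indices `m i` over `F i = 0`, at a point above the point with coprime coordinates `y`. -/
noncomputable def hK {n s r : ℕ} (e : Fin s → ℕ) (d m : Fin r → ℕ)
    (w : (Fin (n + 1) → ℤ) → ℝ) (y : Fin (n + 1) → ℤ) : ℝ :=
  ((∑ j, (e j : ℝ)) + ∑ i, (1 - 1 / (m i : ℝ)) * (d i : ℝ)) * ht y - w y

/-- the proximity function of the reduced preimage of `∏_{i ∈ I} F i = 0` in such a cover, for the
places above `∞` and `p ∈ S`, at a point above the point with coprime coordinates `y`. -/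
noncomputable def proxI {n r : ℕ} (S : Finset ℕ) (d m : Fin r → ℕ) (I : Finset (Fin r))
    (F : Fin r → MvPolynomial (Fin (n + 1)) ℤ) (y : Fin (n + 1) → ℤ) : ℝ :=
  ∑ i ∈ I, (1 / (m i : ℝ)) * ((d i : ℝ) * ht y - Real.log (offS S (eval y (F i))))

/-- the pairs `(G, F)` for which the inequality
`h_K + m_{S,D} ≤ d(L) + ε h - (s + r - ∑_{i ∉ I} 1 / m_i - δ) log T + c` fails for some exponents `m`,
some set `I` of components of the ramification divisor, some number field `L` and some point `y` of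
`𝒴` on `X`, outside `∏ F i = 0`, which is cut out by hyperplanes with coefficients at most `T`, and
for which the primes of `L` outside `S` divide `F i (y)` at least `m i` times, if at all. -/
def FailsD {n s r : ℕ} (S : Finset ℕ) (e : Fin s → ℕ) (d : Fin r → ℕ)
    (𝒴 : Set (Fin (n + 1) → ℤ)) (w : (Fin (n + 1) → ℤ) → ℝ) (H T : ℕ) (ε δ c : ℝ) :
    Set (Sys n s r) :=
  {P | InBox e d H P ∧ ∃ y ∈ 𝒴, CutOut T (fun k => (y k : ℚ)) ∧ (∀ j, eval y (P.1 j) = 0) ∧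
    (∀ i, eval y (P.2 i) ≠ 0) ∧
    ∃ (m : Fin r → ℕ) (I : Finset (Fin r)) (L : Type) (_ : Field L) (_ : NumberField L),
      (∀ i, 1 ≤ m i) ∧ (∀ i, Orb S L (m i) (eval y (P.2 i))) ∧
      logDisc L + ε * ht y - ((s : ℝ) + r - (∑ i ∈ univ \ I, 1 / (m i : ℝ)) - δ) * Real.log T + c <
        hK e d m w y + proxI S d m I P.2 y}

theorem offS_le (S : Finset ℕ) (v : ℤ) (hv : v ≠ 0) : offS S v ≤ v.natAbs := by
  obtain ⟨b, hb, -⟩ := off_on S v hv
  have hb0 : b ≠ 0 := by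
    rintro rfl
    rw [mul_zero] at hb
    exact hv (Int.natAbs_eq_zero.1 hb)
  rw [hb]
  exact Nat.le_mul_of_pos_right _ (Nat.pos_of_ne_zero hb0)

theorem log_offS {n d : ℕ} (S : Finset ℕ) (F : MvPolynomial (Fin (n + 1)) ℤ) (H T : ℕ)
    (hT : 1 ≤ T) (hHT : H ≤ T) (hF : F ∈ Box n d H) (y : Fin (n + 1) → ℤ) (hy : y ≠ 0)
    (hne : eval y F ≠ 0) :
    Real.log (offS S (eval y F)) ≤
      Real.log ((n + d).choose n) + Real.log T + (d : ℝ) * ht y := by
  have hT0 : (0 : ℝ) < T := by exact_mod_cast hT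
  have hq0 : (0 : ℝ) < ((qq y : ℕ) : ℝ) := by exact_mod_cast qq_pos y hy
  have hc0 : (0 : ℝ) < ((n + d).choose n : ℝ) := by
    exact_mod_cast Nat.choose_pos (Nat.le_add_right n d)
  have hbox : F ∈ Box n d T := ⟨hF.1, fun α => (hF.2 α).trans (by exact_mod_cast hHT)⟩
  have h4 := size F hbox y (qq y : ℕ) (by positivity) (le_qq y)
  have h5 : (((eval y F).natAbs : ℕ) : ℤ) ≤
      ((n + d).choose n : ℕ) * ((T : ℤ) * ((qq y : ℕ) : ℤ) ^ d) := by
    rw [← Int.abs_eq_natAbs]; exact h4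
  have h6 : (((eval y F).natAbs : ℕ) : ℝ) ≤
      ((n + d).choose n : ℝ) * (T * ((qq y : ℕ) : ℝ) ^ d) := by exact_mod_cast h5
  have h7 : ((offS S (eval y F) : ℕ) : ℝ) ≤
      ((n + d).choose n : ℝ) * (T * ((qq y : ℕ) : ℝ) ^ d) := by
    refine le_trans ?_ h6
    exact_mod_cast offS_le S _ hne
  have h8 : (0 : ℝ) < ((offS S (eval y F) : ℕ) : ℝ) := by exact_mod_cast offS_pos S _
  refine (Real.log_le_log h8 h7).trans (le_of_eq ?_)
  rw [Real.log_mul hc0.ne' (by positivity), Real.log_mul hT0.ne' (by positivity), Real.log_pow]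
  unfold ht
  ring

theorem failsD_sub {n s r : ℕ} (S : Finset ℕ) (e : Fin s → ℕ) (d : Fin r → ℕ)
    (𝒴 : Set (Fin (n + 1) → ℤ)) (hprim : ∀ y ∈ 𝒴, Prim y) (w : (Fin (n + 1) → ℤ) → ℝ) (H T : ℕ)
    (hT : 1 ≤ T) (hHT : H ≤ T) (ε δ : ℝ) :
    FailsD S e d 𝒴 w H T ε δ (∑ i, Real.log ((n + d i).choose n)) ⊆ Fails S e d 𝒴 w H T ε δ := by
  classical
  rintro P ⟨h1, y, hy, hcut, hz, hne, m, I, L, _, _, hm, ho, hlt⟩
  refine ⟨h1, y, hy, hcut, hz, hne, ?_⟩
  have hkey := key_disc (L := L) S (fun i => eval y (P.2 i)) hne m hm ho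
  rw [N1_eq]
  have hld : logDisc L = Real.log |(NumberField.discr L : ℝ)| / Module.finrank ℚ L := rfl
  rw [← hld] at hkey
  refine lt_of_le_of_lt hkey ?_
  -- split the sum
  have hsplit : ∑ i, (1 / (m i : ℝ)) * Real.log (offS S (eval y (P.2 i))) =
      ∑ i ∈ I, (1 / (m i : ℝ)) * Real.log (offS S (eval y (P.2 i))) +
      ∑ i ∈ univ \ I, (1 / (m i : ℝ)) * Real.log (offS S (eval y (P.2 i))) :=
    (Finset.sum_sdiff (Finset.subset_univ I)).symm.trans (add_comm _ _)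
  have hoff : ∑ i ∈ univ \ I, (1 / (m i : ℝ)) * Real.log (offS S (eval y (P.2 i))) ≤
      ∑ i ∈ univ \ I, (1 / (m i : ℝ)) *
        (Real.log ((n + d i).choose n) + Real.log T + (d i : ℝ) * ht y) := by
    refine Finset.sum_le_sum fun i _ => mul_le_mul_of_nonneg_left ?_ (by positivity)
    exact log_offS S (P.2 i) H T hT hHT (h1.2 i) y (hprim y hy).ne (hne i)
  have hc : ∑ i ∈ univ \ I, (1 / (m i : ℝ)) *
        (Real.log ((n + d i).choose n) + Real.log T + (d i : ℝ) * ht y) ≤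
      (∑ i, Real.log ((n + d i).choose n)) + (∑ i ∈ univ \ I, 1 / (m i : ℝ)) * Real.log T +
        (∑ i ∈ univ \ I, (1 / (m i : ℝ)) * (d i : ℝ)) * ht y := by
    have h3 : ∑ i ∈ univ \ I, (1 / (m i : ℝ)) * Real.log ((n + d i).choose n) ≤
        ∑ i, Real.log ((n + d i).choose n) := by
      refine le_trans (Finset.sum_le_sum fun i _ => ?_)
        (Finset.sum_le_sum_of_subset_of_nonneg (Finset.subset_univ _) fun i _ _ => ?_)
      · have hmi : (1 : ℝ) ≤ m i := by exact_mod_cast hm i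
        refine mul_le_of_le_one_left (Real.log_natCast_nonneg _) ?_
        rw [div_le_one (by linarith)]
        exact hmi
      · exact Real.log_natCast_nonneg _
    have h4 : ∑ i ∈ univ \ I, (1 / (m i : ℝ)) *
        (Real.log ((n + d i).choose n) + Real.log T + (d i : ℝ) * ht y) =
        ∑ i ∈ univ \ I, (1 / (m i : ℝ)) * Real.log ((n + d i).choose n) +
        (∑ i ∈ univ \ I, 1 / (m i : ℝ)) * Real.log T +
        (∑ i ∈ univ \ I, (1 / (m i : ℝ)) * (d i : ℝ)) * ht y := by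
      rw [Finset.sum_mul, Finset.sum_mul, ← Finset.sum_add_distrib, ← Finset.sum_add_distrib]
      exact Finset.sum_congr rfl fun i _ => by ring
    rw [h4]
    linarith
  -- the proximity function
  have hp : proxI S d m I P.2 y = (∑ i ∈ I, (1 / (m i : ℝ)) * (d i : ℝ)) * ht y -
      ∑ i ∈ I, (1 / (m i : ℝ)) * Real.log (offS S (eval y (P.2 i))) := by
    unfold proxI
    rw [Finset.sum_mul, ← Finset.sum_sub_distrib]
    exact Finset.sum_congr rfl fun i _ => by ring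
  have hd : ∑ i, (1 - 1 / (m i : ℝ)) * (d i : ℝ) = (∑ i, (d i : ℝ)) -
      (∑ i ∈ I, (1 / (m i : ℝ)) * (d i : ℝ)) - ∑ i ∈ univ \ I, (1 / (m i : ℝ)) * (d i : ℝ) := by
    have h5 : ∑ i, (1 / (m i : ℝ)) * (d i : ℝ) = ∑ i ∈ univ \ I, (1 / (m i : ℝ)) * (d i : ℝ) +
        ∑ i ∈ I, (1 / (m i : ℝ)) * (d i : ℝ) := (Finset.sum_sdiff (Finset.subset_univ I)).symm
    have h6 : ∑ i, (1 - 1 / (m i : ℝ)) * (d i : ℝ) = (∑ i, (d i : ℝ)) -
        ∑ i, (1 / (m i : ℝ)) * (d i : ℝ) := by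
      rw [← Finset.sum_sub_distrib]
      exact Finset.sum_congr rfl fun i _ => by ring
    rw [h6, h5]
    ring
  unfold hK at hlt
  rw [hp, hd] at hlt
  rw [hsplit]
  nlinarith [hlt, hoff, hc]

theorem failsD_finite {n s r : ℕ} (S : Finset ℕ) (e : Fin s → ℕ) (d : Fin r → ℕ)
    (𝒴 : Set (Fin (n + 1) → ℤ)) (w : (Fin (n + 1) → ℤ) → ℝ) (H T : ℕ) (ε δ c : ℝ) :
    (FailsD S e d 𝒴 w H T ε δ c).Finite :=
  (inBox_finite e d H).subset (fun _ hP => hP.1)

theorem failsD {n s r : ℕ} (S : Finset ℕ) (e : Fin s → ℕ) (d : Fin r → ℕ)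
    (hd : ∀ i, 1 ≤ d i) (𝒴 : Set (Fin (n + 1) → ℤ)) (hprim : ∀ y ∈ 𝒴, Prim y)
    (w : (Fin (n + 1) → ℤ) → ℝ) (hw : Conv 𝒴 w) (ε : ℝ) (hε : 0 < ε) :
    ∃ C : ℝ, ∀ (δ : ℝ) (H T : ℕ), 1 ≤ T → H ≤ T →
      (Nat.card (FailsD S e d 𝒴 w H T ε δ (∑ i, Real.log ((n + d i).choose n))) : ℝ) ≤
        C * (T : ℝ) ^ ((∑ j, ((n + e j).choose n : ℝ)) +
          (∑ i, ((n + d i).choose n : ℝ)) - δ + ε) := by
  obtain ⟨C, hC⟩ := fails (n := n) S e d hd 𝒴 hprim w hw ε hε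
  refine ⟨C, fun δ H T hT hHT => ?_⟩
  exact (card_le_of_sub (failsD_sub S e d 𝒴 hprim w H T hT hHT ε δ)
    ((inBox_finite e d H).subset (fun P hP => hP.1))).trans (hC δ H T hT hHT)

end Pool.Agent.Q256.VD
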